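import Pool.Agent.EM.Data.I000
import Pool.Agent.EM.Data.I001
import Pool.Agent.EM.Data.I002
import Pool.Agent.EM.Data.I003
import Pool.Agent.EM.Data.I004
import Pool.Agent.EM.Data.I005
import Pool.Agent.EM.Data.I006
import Pool.Agent.EM.Data.I007
import Pool.Agent.EM.Data.I008
import Pool.Agent.EM.Data.I009
import Pool.Agent.EM.Data.I010
import Pool.Agent.EM.Data.I011
import Pool.Agent.EM.Data.I012
import Pool.Agent.EM.Data.I013
import Pool.Agent.EM.Data.I014
import Pool.Agent.EM.Data.I015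
import Pool.Agent.EM.Data.I016
import Pool.Agent.EM.Data.I017
import Pool.Agent.EM.Data.I018
import Pool.Agent.EM.Data.I019
import Pool.Agent.EM.Data.I020
import Pool.Agent.EM.Data.I021
import Pool.Agent.EM.Data.I022
import Pool.Agent.EM.Data.I023
import Pool.Agent.EM.Data.I024
import Pool.Agent.EM.Data.I025
import Pool.Agent.EM.Data.I026
import Pool.Agent.EM.Data.I027
import Pool.Agent.EM.Data.I028
import Pool.Agent.EM.Data.I029
import Pool.Agent.EM.Data.I030
import Pool.Agent.EM.Data.I031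
import Pool.Agent.EM.Data.I032
import Pool.Agent.EM.Data.I033
import Pool.Agent.EM.Data.I034
import Pool.Agent.EM.Data.I035
import Pool.Agent.EM.Data.I036
import Pool.Agent.EM.Data.I037
import Pool.Agent.EM.Data.I038
import Pool.Agent.EM.Data.I039
import Pool.Agent.EM.Data.I040
import Pool.Agent.EM.Data.I041
import Pool.Agent.EM.Data.I042
import Pool.Agent.EM.Data.I043
import Pool.Agent.EM.Data.I044
import Pool.Agent.EM.Data.I045
import Pool.Agent.EM.Data.I046
import Pool.Agent.EM.Data.I047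
import Pool.Agent.EM.Data.I048
import Pool.Agent.EM.Data.I049
import Pool.Agent.EM.Data.I050
import Pool.Agent.EM.Data.I051
import Pool.Agent.EM.Data.I052
import Pool.Agent.EM.Data.I053
import Pool.Agent.EM.Data.I054
import Pool.Agent.EM.Data.I055
import Pool.Agent.EM.Data.I056
import Pool.Agent.EM.Data.I057
import Pool.Agent.EM.Data.I058
import Pool.Agent.EM.Data.I059
import Pool.Agent.EM.Data.I060
import Pool.Agent.EM.Data.I061
import Pool.Agent.EM.Data.I062
import Pool.Agent.EM.Data.Link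

/-! # EM data: the chain of all intervals (printed by print_final.py) -/

set_option autoImplicit false

namespace Pool.Agent.EM.Data

open Pool.Agent.EM

theorem ch0 : Reach (nA 88 80 r0 N0) (nB 88 80 r0 N1) := reach0
theorem ch1 : Reach (nA 88 80 r0 N0) (nB 88 80 r1 N2) := ch0.link lk0 reach1
theorem ch2 : Reach (nA 88 80 r0 N0) (nB 88 80 r2 N3) := ch1.link lk1 reach2
theorem ch3 : Reach (nA 88 80 r0 N0) (nB 88 80 r3 N4) := ch2.link lk2 reach3
theorem ch4 : Reach (nA 88 80 r0 N0) (nB 88 80 r4 N5) := ch3.link lk3 reach4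
theorem ch5 : Reach (nA 88 80 r0 N0) (nB 88 80 r5 N6) := ch4.link lk4 reach5
theorem ch6 : Reach (nA 88 80 r0 N0) (nB 88 80 r6 N7) := ch5.link lk5 reach6
theorem ch7 : Reach (nA 88 80 r0 N0) (nB 88 80 r7 N8) := ch6.link lk6 reach7
theorem ch8 : Reach (nA 88 80 r0 N0) (nB 88 80 r8 N9) := ch7.link lk7 reach8
theorem ch9 : Reach (nA 88 80 r0 N0) (nB 88 80 r9 N10) := ch8.link lk8 reach9
theorem ch10 : Reach (nA 88 80 r0 N0) (nB 88 80 r10 N11) := ch9.link lk9 reach10
theorem ch11 : Reach (nA 88 80 r0 N0) (nB 88 80 r11 N12) := ch10.link lk10 reach11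
theorem ch12 : Reach (nA 88 80 r0 N0) (nB 88 80 r12 N13) := ch11.link lk11 reach12
theorem ch13 : Reach (nA 88 80 r0 N0) (nB 88 80 r13 N14) := ch12.link lk12 reach13
theorem ch14 : Reach (nA 88 80 r0 N0) (nB 88 80 r14 N15) := ch13.link lk13 reach14
theorem ch15 : Reach (nA 88 80 r0 N0) (nB 88 80 r15 N16) := ch14.link lk14 reach15
theorem ch16 : Reach (nA 88 80 r0 N0) (nB 88 80 r16 N17) := ch15.link lk15 reach16
theorem ch17 : Reach (nA 88 80 r0 N0) (nB 88 80 r17 N18) := ch16.link lk16 reach17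
theorem ch18 : Reach (nA 88 80 r0 N0) (nB 88 80 r18 N19) := ch17.link lk17 reach18
theorem ch19 : Reach (nA 88 80 r0 N0) (nB 88 80 r19 N20) := ch18.link lk18 reach19
theorem ch20 : Reach (nA 88 80 r0 N0) (nB 88 80 r20 N21) := ch19.link lk19 reach20
theorem ch21 : Reach (nA 88 80 r0 N0) (nB 88 80 r21 N22) := ch20.link lk20 reach21
theorem ch22 : Reach (nA 88 80 r0 N0) (nB 88 80 r22 N23) := ch21.link lk21 reach22
theorem ch23 : Reach (nA 88 80 r0 N0) (nB 88 80 r23 N24) := ch22.link lk22 reach23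
theorem ch24 : Reach (nA 88 80 r0 N0) (nB 88 80 r24 N25) := ch23.link lk23 reach24
theorem ch25 : Reach (nA 88 80 r0 N0) (nB 88 80 r25 N26) := ch24.link lk24 reach25
theorem ch26 : Reach (nA 88 80 r0 N0) (nB 88 80 r26 N27) := ch25.link lk25 reach26
theorem ch27 : Reach (nA 88 80 r0 N0) (nB 88 80 r27 N28) := ch26.link lk26 reach27
theorem ch28 : Reach (nA 88 80 r0 N0) (nB 88 80 r28 N29) := ch27.link lk27 reach28
theorem ch29 : Reach (nA 88 80 r0 N0) (nB 88 80 r29 N30) := ch28.link lk28 reach29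
theorem ch30 : Reach (nA 88 80 r0 N0) (nB 88 80 r30 N31) := ch29.link lk29 reach30
theorem ch31 : Reach (nA 88 80 r0 N0) (nB 88 80 r31 N32) := ch30.link lk30 reach31
theorem ch32 : Reach (nA 88 80 r0 N0) (nB 88 80 r32 N33) := ch31.link lk31 reach32
theorem ch33 : Reach (nA 88 80 r0 N0) (nB 88 80 r33 N34) := ch32.link lk32 reach33
theorem ch34 : Reach (nA 88 80 r0 N0) (nB 88 80 r34 N35) := ch33.link lk33 reach34
theorem ch35 : Reach (nA 88 80 r0 N0) (nB 88 80 r35 N36) := ch34.link lk34 reach35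
theorem ch36 : Reach (nA 88 80 r0 N0) (nB 88 80 r36 N37) := ch35.link lk35 reach36
theorem ch37 : Reach (nA 88 80 r0 N0) (nB 88 80 r37 N38) := ch36.link lk36 reach37
theorem ch38 : Reach (nA 88 80 r0 N0) (nB 88 80 r38 N39) := ch37.link lk37 reach38
theorem ch39 : Reach (nA 88 80 r0 N0) (nB 88 80 r39 N40) := ch38.link lk38 reach39
theorem ch40 : Reach (nA 88 80 r0 N0) (nB 88 80 r40 N41) := ch39.link lk39 reach40
theorem ch41 : Reach (nA 88 80 r0 N0) (nB 88 80 r41 N42) := ch40.link lk40 reach41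
theorem ch42 : Reach (nA 88 80 r0 N0) (nB 88 80 r42 N43) := ch41.link lk41 reach42
theorem ch43 : Reach (nA 88 80 r0 N0) (nB 88 80 r43 N44) := ch42.link lk42 reach43
theorem ch44 : Reach (nA 88 80 r0 N0) (nB 88 80 r44 N45) := ch43.link lk43 reach44
theorem ch45 : Reach (nA 88 80 r0 N0) (nB 88 80 r45 N46) := ch44.link lk44 reach45
theorem ch46 : Reach (nA 88 80 r0 N0) (nB 88 80 r46 N47) := ch45.link lk45 reach46
theorem ch47 : Reach (nA 88 80 r0 N0) (nB 88 80 r47 N48) := ch46.link lk46 reach47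
theorem ch48 : Reach (nA 88 80 r0 N0) (nB 88 80 r48 N49) := ch47.link lk47 reach48
theorem ch49 : Reach (nA 88 80 r0 N0) (nB 88 80 r49 N50) := ch48.link lk48 reach49
theorem ch50 : Reach (nA 88 80 r0 N0) (nB 88 80 r50 N51) := ch49.link lk49 reach50
theorem ch51 : Reach (nA 88 80 r0 N0) (nB 88 80 r51 N52) := ch50.link lk50 reach51
theorem ch52 : Reach (nA 88 80 r0 N0) (nB 88 80 r52 N53) := ch51.link lk51 reach52
theorem ch53 : Reach (nA 88 80 r0 N0) (nB 88 80 r53 N54) := ch52.link lk52 reach53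
theorem ch54 : Reach (nA 88 80 r0 N0) (nB 88 80 r54 N55) := ch53.link lk53 reach54
theorem ch55 : Reach (nA 88 80 r0 N0) (nB 88 80 r55 N56) := ch54.link lk54 reach55
theorem ch56 : Reach (nA 88 80 r0 N0) (nB 88 80 r56 N57) := ch55.link lk55 reach56
theorem ch57 : Reach (nA 88 80 r0 N0) (nB 88 80 r57 N58) := ch56.link lk56 reach57
theorem ch58 : Reach (nA 88 80 r0 N0) (nB 88 80 r58 N59) := ch57.link lk57 reach58
theorem ch59 : Reach (nA 88 80 r0 N0) (nB 88 80 r59 N60) := ch58.link lk58 reach59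
theorem ch60 : Reach (nA 88 80 r0 N0) (nB 88 80 r60 N61) := ch59.link lk59 reach60
theorem ch61 : Reach (nA 88 80 r0 N0) (nB 88 80 r61 N62) := ch60.link lk60 reach61
theorem ch62 : Reach (nA 88 80 r0 N0) (nB 88 80 r62 N63) := ch61.link lk61 reach62

end Pool.Agent.EM.Data
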