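import Pool.Agent.EM.Data.Nd00
import Pool.Agent.EM.Data.Nd10
import Pool.Agent.EM.Data.Num00
import Pool.Agent.EM.Data.Num07

/-! # EM data: the two ends (printed by print_final.py) -/

set_option autoImplicit false

namespace Pool.Agent.EM.Data

open Pool.Agent.EM

def qS : List ℤ := unpB 44 [(100, 0x7ff48e3c0007ff993ac0007ffcc688000800b14b40007ffca1200007fe15e18000800bd0f40008011adc80007fe39e440007ff1a12000080054d9000080099ab80007ff624640007fd38474000800db1a4000802004780007fce13040007fe2c49000080173f8c000800517bc0007fe755f00007fcc4624000800f2cb0000802f45380007fb36f540007fcfed68000803ed9fc0007ff2ad100007fc8204c0007fe233ec00080069df000080363c040007f9be5880007fa4cf4c000808b7cb40007fd046b40007f607c78000803309040007ffe90dc0007ff1279c0007f98c1d80007f553a4000080d498e80007fcc03140007e6dc458000808316b0000804b89640007f2467d00007f6438fc0007f2065a000080cd17980007fdae0bc0007d56d8e800080525ae4000810199880007e6da4280007e98c8340007f63cdd400080ebf0c80007f885a700007d25011000080369160000810425b40007ec8344c0007eaf68f8000801be2640008124b09c0007f8459340007e677e6c00080a1605000080f0c1340007e57bf640007f8778e80008060b7e40007e7e29bc00080efcb60000807094600007e69dd90000805f748c0007ec8baf40008040a00400084b40ad400079feafd8000784e88b400086f62ba000078a727f00007aecd31c0007cd535b40006ff7764400081f5c2380008030ea140007b6b4b78000782310b00008009f7fc0008cff6bd80007ed168940008d4d472400080f2e80400081e12d78000ad082d14000),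 (14, 0x7ffd45a8000800651c00007ffdfdf80007ff8a798000800338100008001fce80007ffe282c0007ffb54580007ffb8c1c0008009d97c0007ffd905c0007fef278c000800820900008006ce0c000)]

def qE : List ℤ := unpB 44 [(18, 0x800359e000080003ae00007fffc59c000800d81000008019517c0007fc8ca100007f3527e00007ff2e3380008225147400080d9601c0007c0716680008328f3a8000aba75e5400089016870000535ca84c0005634e5c800094193ec4000b2fe7b38000)]

theorem start : chkStart r0 N0 qS 98372977323597631190216 = true := by decide +kernel

theorem finish : chkEnd 88 80 r62 N63 qE 115261464905285247716276 (163323 / 50000) = true := by decide +kernel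

end Pool.Agent.EM.Data
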