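import Pool.Agent.EM.Data.Num00
import Pool.Agent.EM.Data.Num01
import Pool.Agent.EM.Data.Num02
import Pool.Agent.EM.Data.Num03
import Pool.Agent.EM.Data.Num04
import Pool.Agent.EM.Data.Num05
import Pool.Agent.EM.Data.Num06
import Pool.Agent.EM.Data.Num07

/-! # EM data: links of neighbouring intervals (printed by print_num.py) -/

set_option autoImplicit false

namespace Pool.Agent.EM.Data

theorem lk0 : r0.link r1 = true := by decide +kernel
theorem lk1 : r1.link r2 = true := by decide +kernel
theorem lk2 : r2.link r3 = true := by decide +kernel
theorem lk3 : r3.link r4 = true := by decide +kernel
theorem lk4 : r4.link r5 = true := by decide +kernel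
theorem lk5 : r5.link r6 = true := by decide +kernel
theorem lk6 : r6.link r7 = true := by decide +kernel
theorem lk7 : r7.link r8 = true := by decide +kernel
theorem lk8 : r8.link r9 = true := by decide +kernel
theorem lk9 : r9.link r10 = true := by decide +kernel
theorem lk10 : r10.link r11 = true := by decide +kernel
theorem lk11 : r11.link r12 = true := by decide +kernel
theorem lk12 : r12.link r13 = true := by decide +kernel
theorem lk13 : r13.link r14 = true := by decide +kernel
theorem lk14 : r14.link r15 = true := by decide +kernel
theorem lk15 : r15.link r16 = true := by decide +kernel
theorem lk16 : r16.link r17 = true := by decide +kernel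
theorem lk17 : r17.link r18 = true := by decide +kernel
theorem lk18 : r18.link r19 = true := by decide +kernel
theorem lk19 : r19.link r20 = true := by decide +kernel
theorem lk20 : r20.link r21 = true := by decide +kernel
theorem lk21 : r21.link r22 = true := by decide +kernel
theorem lk22 : r22.link r23 = true := by decide +kernel
theorem lk23 : r23.link r24 = true := by decide +kernel
theorem lk24 : r24.link r25 = true := by decide +kernel
theorem lk25 : r25.link r26 = true := by decide +kernel
theorem lk26 : r26.link r27 = true := by decide +kernel
theorem lk27 : r27.link r28 = true := by decide +kernel
theorem lk28 : r28.link r29 = true := by decide +kernel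
theorem lk29 : r29.link r30 = true := by decide +kernel
theorem lk30 : r30.link r31 = true := by decide +kernel
theorem lk31 : r31.link r32 = true := by decide +kernel
theorem lk32 : r32.link r33 = true := by decide +kernel
theorem lk33 : r33.link r34 = true := by decide +kernel
theorem lk34 : r34.link r35 = true := by decide +kernel
theorem lk35 : r35.link r36 = true := by decide +kernel
theorem lk36 : r36.link r37 = true := by decide +kernel
theorem lk37 : r37.link r38 = true := by decide +kernel
theorem lk38 : r38.link r39 = true := by decide +kernel
theorem lk39 : r39.link r40 = true := by decide +kernel
theorem lk40 : r40.link r41 = true := by decide +kernel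
theorem lk41 : r41.link r42 = true := by decide +kernel
theorem lk42 : r42.link r43 = true := by decide +kernel
theorem lk43 : r43.link r44 = true := by decide +kernel
theorem lk44 : r44.link r45 = true := by decide +kernel
theorem lk45 : r45.link r46 = true := by decide +kernel
theorem lk46 : r46.link r47 = true := by decide +kernel
theorem lk47 : r47.link r48 = true := by decide +kernel
theorem lk48 : r48.link r49 = true := by decide +kernel
theorem lk49 : r49.link r50 = true := by decide +kernel
theorem lk50 : r50.link r51 = true := by decide +kernel
theorem lk51 : r51.link r52 = true := by decide +kernel
theorem lk52 : r52.link r53 = true := by decide +kernel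
theorem lk53 : r53.link r54 = true := by decide +kernel
theorem lk54 : r54.link r55 = true := by decide +kernel
theorem lk55 : r55.link r56 = true := by decide +kernel
theorem lk56 : r56.link r57 = true := by decide +kernel
theorem lk57 : r57.link r58 = true := by decide +kernel
theorem lk58 : r58.link r59 = true := by decide +kernel
theorem lk59 : r59.link r60 = true := by decide +kernel
theorem lk60 : r60.link r61 = true := by decide +kernel
theorem lk61 : r61.link r62 = true := by decide +kernel

end Pool.Agent.EM.Data
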